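import Pool.Agent.W495.DC.Defs

/-!
# Critical values: direct sums, cancellation, descent of the coefficients
-/

set_option autoImplicit false

namespace Pool.Agent.W495.DC

open Polynomial

/-- An element `x` of `E'` belongs to `E` if its image under each embedding of `E'` in `ℂ` depends
only on the restriction of the embedding to `E`. -/
theorem mem_of_embeddings {E E' : Type} [Field E] [NumberField E] [Field E'] [NumberField E']
    [Algebra E E'] (x : E')
    (h : ∀ σ τ : E' →+* ℂ, σ.comp (algebraMap E E') = τ.comp (algebraMap E E') → σ x = τ x) :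
    ∃ y : E, algebraMap E E' y = x := by
  obtain ⟨σ₀⟩ : Nonempty (E →+* ℂ) := inferInstance
  let _ : Algebra E ℂ := σ₀.toAlgebra
  have hfin : FiniteDimensional E E' := by
    have : IsScalarTower ℚ E E' := inferInstance
    exact FiniteDimensional.right ℚ E E'
  have halg : ∀ s : E', IsIntegral E s ∧ ((minpoly E s).map (algebraMap E ℂ)).Splits :=
    fun s => ⟨Algebra.IsIntegral.isIntegral s, IsAlgClosed.splits _⟩
  have hsep : (minpoly E x).Separable := (minpoly.irreducible (halg x).1).separable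
  have hone : ∀ r ∈ (minpoly E x).rootSet ℂ, ∀ r' ∈ (minpoly E x).rootSet ℂ, r = r' := by
    intro r hr r' hr'
    obtain ⟨φ, hφ⟩ := IntermediateField.exists_algHom_of_splits_of_aeval halg
      ((mem_rootSet.mp hr).2)
    obtain ⟨ψ, hψ⟩ := IntermediateField.exists_algHom_of_splits_of_aeval halg
      ((mem_rootSet.mp hr').2)
    rw [← hφ, ← hψ]
    refine h φ.toRingHom ψ.toRingHom ?_
    ext y
    exact (φ.commutes y).trans (ψ.commutes y).symm
  have hcard : Fintype.card ((minpoly E x).rootSet ℂ) = (minpoly E x).natDegree :=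
    card_rootSet_eq_natDegree hsep (halg x).2
  have hle : Fintype.card ((minpoly E x).rootSet ℂ) ≤ 1 :=
    Fintype.card_le_one_iff.mpr fun a b => Subtype.ext (hone a a.2 b b.2)
  have hdeg : (minpoly E x).natDegree = 1 := by
    have := minpoly.natDegree_pos (halg x).1
    omega
  have := minpoly.mem_range_of_degree_eq_one E x
    ((degree_eq_iff_natDegree_eq_of_pos one_pos).mpr hdeg)
  exact this

variable {T : Motives}

theorem tp_ne_zero : (2 * Real.pi * Complex.I : ℂ) ≠ 0 := by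
  simp [Real.pi_ne_zero]

theorem deligne_add (hT : IsMotives T) {E : Type} [Field E] [NumberField E] {M N : T.Mot E}
    {m : ℤ} {b : Bool} {w : ℤ} (kM : (T.inv M).Kind b w) (kN : (T.inv N).Kind b w)
    (rM : (T.inv M).reg m) (rN : (T.inv N).reg m)
    (hM : (T.inv M).Deligne m) (hN : (T.inv N).Deligne m) :
    (T.inv (T.add M N)).Deligne m := by
  obtain ⟨e, he⟩ := hM
  obtain ⟨f, hf⟩ := hN
  obtain ⟨a, ha0, ha⟩ := hT.c_add b w M N (sgn m) kM kN
  refine ⟨e * f / a, fun σ => ?_⟩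
  have ha1 : σ a ≠ 0 := by simpa using ha0
  rw [hT.L_add M N m σ rM rN, he σ, hf σ, hT.n_add, ha σ, Nat.cast_add, mul_add,
    zpow_add₀ tp_ne_zero, map_div₀, map_mul]
  field_simp

theorem deligne_cancel (hT : IsMotives T) {E : Type} [Field E] [NumberField E] {M N : T.Mot E}
    {m : ℤ} {b : Bool} {w : ℤ} (kM : (T.inv M).Kind b w) (kN : (T.inv N).Kind b w)
    (rM : (T.inv M).reg m) (rN : (T.inv N).reg m)
    (h : (T.inv (T.add M N)).Deligne m) (hN : (T.inv N).Deligne m)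
    (h0 : ∀ σ : E →+* ℂ, (T.inv N).L m σ ≠ 0) : (T.inv M).Deligne m := by
  obtain ⟨e, he⟩ := h
  obtain ⟨f, hf⟩ := hN
  obtain ⟨a, ha0, ha⟩ := hT.c_add b w M N (sgn m) kM kN
  refine ⟨e * a / f, fun σ => ?_⟩
  have h1 := he σ
  have h2 := h0 σ
  have hf1 : σ f ≠ 0 := by
    intro h3
    apply h2
    rw [hf σ, h3, zero_mul]
  have hc : (T.inv N).c (sgn m) σ ≠ 0 := hT.c_ne_zero b w N _ σ kN
  have hp : (2 * Real.pi * Complex.I : ℂ) ^ (m * ((T.inv N).n (sgn m) : ℤ)) ≠ 0 :=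
    zpow_ne_zero _ tp_ne_zero
  rw [hT.L_add M N m σ rM rN, hf σ, hT.n_add, ha σ, Nat.cast_add, mul_add,
    zpow_add₀ tp_ne_zero] at h1
  rw [map_div₀, map_mul]
  have h4 : (T.inv M).L m σ * (σ f * ((2 * Real.pi * Complex.I : ℂ) ^
      (m * ((T.inv N).n (sgn m) : ℤ)) * (T.inv N).c (sgn m) σ)) =
      (σ e * σ a / σ f * ((2 * Real.pi * Complex.I : ℂ) ^ (m * ((T.inv M).n (sgn m) : ℤ)) *
        (T.inv M).c (sgn m) σ)) * (σ f * ((2 * Real.pi * Complex.I : ℂ) ^
      (m * ((T.inv N).n (sgn m) : ℤ)) * (T.inv N).c (sgn m) σ)) := by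
    rw [h1]
    field_simp
  exact mul_right_cancel₀ (mul_ne_zero hf1 (mul_ne_zero hp hc)) h4

theorem deligne_iso (hT : IsMotives T) {E : Type} [Field E] [NumberField E] {M N : T.Mot E}
    {m : ℤ} {b : Bool} {w : ℤ} (kM : (T.inv M).Kind b w) (h : T.Iso M N)
    (hN : (T.inv N).Deligne m) : (T.inv M).Deligne m := by
  obtain ⟨f, hf⟩ := hN
  obtain ⟨a, ha0, ha⟩ := hT.c_iso b w M N h kM (sgn m)
  refine ⟨f / a, fun σ => ?_⟩
  have ha1 : σ a ≠ 0 := by simpa using ha0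
  rw [hT.L_iso M N h, hf σ, hT.n_iso M N h, ha σ, map_div₀]
  field_simp

theorem deligne_descent (hT : IsMotives T) {E E' : Type} [Field E] [NumberField E] [Field E']
    [NumberField E'] [Algebra E E'] {M : T.Mot E} {m : ℤ} {b : Bool} {w : ℤ}
    (kM : (T.inv M).Kind b w)
    (h : (T.inv (T.ext E' M)).Deligne m) : (T.inv M).Deligne m := by
  obtain ⟨e, he⟩ := h
  obtain ⟨a, ha0, ha⟩ := hT.c_ext (E' := E') b w M (sgn m) kM
  have hp : (2 * Real.pi * Complex.I : ℂ) ^ (m * ((T.inv M).n (sgn m) : ℤ)) ≠ 0 :=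
    zpow_ne_zero _ tp_ne_zero
  have key : ∀ σ : E' →+* ℂ, (T.inv M).L m (σ.comp (algebraMap E E')) =
      σ (e * a) * ((2 * Real.pi * Complex.I : ℂ) ^ (m * ((T.inv M).n (sgn m) : ℤ)) *
        (T.inv M).c (sgn m) (σ.comp (algebraMap E E'))) := by
    intro σ
    have h1 := he σ
    rw [hT.L_ext, hT.n_ext, ha σ] at h1
    rw [h1, map_mul]
    ring
  obtain ⟨y, hy⟩ := mem_of_embeddings (E := E) (e * a) (fun σ τ hστ => by
    have h1 := key σ
    have h2 := key τ
    rw [hστ, h2] at h1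
    exact (mul_right_cancel₀ (mul_ne_zero hp (hT.c_ne_zero b w M _ _ kM)) h1).symm)
  refine ⟨y, fun σ => ?_⟩
  obtain ⟨τ, hτ⟩ : ∃ τ : E' →+* ℂ, τ.comp (algebraMap E E') = σ := by
    let _ : Algebra E ℂ := σ.toAlgebra
    have hfin : FiniteDimensional E E' := by
      have : IsScalarTower ℚ E E' := inferInstance
      exact FiniteDimensional.right ℚ E E'
    obtain ⟨φ⟩ : Nonempty (E' →ₐ[E] ℂ) := ⟨IsAlgClosed.lift⟩
    exact ⟨φ.toRingHom, by ext y; exact φ.commutes y⟩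
  have h1 := key τ
  rw [← hy, hτ] at h1
  rw [h1]
  congr 1
  rw [← hτ]
  rfl

/-- The motive has the kind `(b, w)` and no pole at `m`. -/
def Good {E : Type} [Field E] [NumberField E] (b : Bool) (w m : ℤ) (M : T.Mot E) : Prop :=
  (T.inv M).Kind b w ∧ (T.inv M).reg m

theorem good_sum (hT : IsMotives T) {E : Type} [Field E] [NumberField E] {m : ℤ} {b : Bool}
    {w : ℤ} {M : T.Mot E} (gM : Good b w m M) : ∀ l : List (T.Mot E),
      (∀ Z ∈ l, Good b w m Z) → Good b w m (T.sum M l)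
  | [], _ => gM
  | X :: l, h => by
    have h1 := good_sum hT gM l fun Z hZ => h Z (List.mem_cons_of_mem _ hZ)
    have h2 := h X List.mem_cons_self
    exact ⟨hT.kind_add b w _ _ h1.1 h2.1, hT.reg_add _ _ m h1.2 h2.2⟩

theorem deligne_sum (hT : IsMotives T) {E : Type} [Field E] [NumberField E] {m : ℤ} {b : Bool}
    {w : ℤ} {M : T.Mot E} (gM : Good b w m M) (hM : (T.inv M).Deligne m) :
    ∀ l : List (T.Mot E), (∀ Z ∈ l, Good b w m Z ∧ (T.inv Z).Deligne m) →
      (T.inv (T.sum M l)).Deligne m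
  | [], _ => hM
  | X :: l, h => by
    have h1 := good_sum hT gM l fun Z hZ => (h Z (List.mem_cons_of_mem _ hZ)).1
    have h2 := h X List.mem_cons_self
    exact deligne_add hT h1.1 h2.1.1 h1.2 h2.1.2
      (deligne_sum hT gM hM l fun Z hZ => h Z (List.mem_cons_of_mem _ hZ)) h2.2

theorem deligne_of_sum (hT : IsMotives T) {E : Type} [Field E] [NumberField E] {m : ℤ}
    {b : Bool} {w : ℤ} {M : T.Mot E} (gM : Good b w m M) : ∀ l : List (T.Mot E),
      (∀ Z ∈ l, Good b w m Z ∧ (T.inv Z).Deligne m ∧ ∀ σ : E →+* ℂ, (T.inv Z).L m σ ≠ 0) →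
      (T.inv (T.sum M l)).Deligne m → (T.inv M).Deligne m
  | [], _, h => h
  | X :: l, hl, h => by
    have h1 := good_sum hT gM l fun Z hZ => (hl Z (List.mem_cons_of_mem _ hZ)).1
    have h2 := hl X List.mem_cons_self
    exact deligne_of_sum hT gM l (fun Z hZ => hl Z (List.mem_cons_of_mem _ hZ))
      (deligne_cancel hT h1.1 h2.1.1 h1.2 h2.1.2 h h2.2.1 h2.2.2)

/-- The conclusion from the `X_i` and `Y_j` to `M`. -/
theorem deligne_main (hT : IsMotives T) {E E' : Type} [Field E] [NumberField E] [Field E']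
    [NumberField E'] [Algebra E E'] {m : ℤ} {b : Bool} {w : ℤ} {M : T.Mot E}
    (gM : Good b w m M) {X Y : List (T.Mot E')} {Y₀ : T.Mot E'}
    (hD : ∀ Z, Z ∈ X ∨ Z = Y₀ ∨ Z ∈ Y → Good b w m Z ∧ (T.inv Z).Deligne m ∧
      ∀ σ : E' →+* ℂ, (T.inv Z).L m σ ≠ 0)
    (hiso : T.Iso (T.sum (T.ext E' M) X) (T.sum Y₀ Y)) : (T.inv M).Deligne m := by
  have gM' : Good b w m (T.ext E' M) := ⟨hT.kind_ext b w M gM.1, hT.reg_ext M m gM.2⟩
  have h1 : (T.inv (T.sum Y₀ Y)).Deligne m :=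
    deligne_sum hT (hD Y₀ (Or.inr (Or.inl rfl))).1 (hD Y₀ (Or.inr (Or.inl rfl))).2.1 Y
      fun Z h => ⟨(hD Z (Or.inr (Or.inr h))).1, (hD Z (Or.inr (Or.inr h))).2.1⟩
  have h2 := good_sum hT gM' X fun Z h => (hD Z (Or.inl h)).1
  exact deligne_descent hT gM.1 (deligne_of_sum hT gM' X (fun Z h => hD Z (Or.inl h))
    (deligne_iso hT h2.1 hiso h1))

theorem main (hT : IsMotives T) (hB : HasBrauer T) {E : Type} [Field E] [NumberField E]
    (M : T.Mot E) (hM : T.IsPotCM M) (hne : (T.inv M).types.Nonempty) (h0 : (T.inv M).NoMiddle)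
    (m : ℤ) (hm : (T.inv M).IsCritical m) (hc : 2 * m ≠ (T.inv M).w + 1) :
    (T.inv M).Deligne m := by
  obtain ⟨E', _, _, _, X, Y₀, Y, hZ, hiso⟩ := hB.brauer M hM hne h0
  have gM : Good true (T.inv M).w m M :=
    ⟨⟨rfl, fun _ => h0, fun h => absurd h (by decide)⟩, hB.regular M (Or.inr hM) h0 m hm hc⟩
  refine deligne_main hT gM (fun Z h => ?_) hiso
  obtain ⟨h1, h2, h3⟩ := hZ Z h
  have h4 : (T.inv Z).NoMiddle := fun p q hpq => h0 p q (h3 hpq)
  have h5 : (T.inv Z).IsCritical m := fun p q hpq => hm p q (h3 hpq)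
  have h6 : 2 * m ≠ (T.inv Z).w + 1 := by rw [h2]; exact hc
  exact ⟨⟨⟨h2, fun _ => h4, fun h => absurd h (by decide)⟩, hB.regular Z (Or.inl h1) h4 m h5 h6⟩,
    hB.hecke Z h1 h4 m h5, hB.nonvanishing Z h1 h4 m h5 h6⟩

theorem main_zero (hT : IsMotives T) (hB : HasBrauerAtZero T) {E : Type} [Field E]
    [NumberField E] (M : T.Mot E) (hM : T.IsPotCM M) (hne : (T.inv M).types.Nonempty)
    (hm : (T.inv M).IsCriticalAtZero) (hc : (T.inv M).w ≠ -1) : (T.inv M).Deligne 0 := by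
  obtain ⟨E', _, _, _, X, Y₀, Y, hZ, hiso⟩ := hB.brauer M hM hne hm
  have gM : Good false (T.inv M).w 0 M :=
    ⟨⟨rfl, fun h => absurd h (by decide), fun _ => hm⟩, hB.regular M (Or.inr hM) hm hc⟩
  refine deligne_main hT gM (fun Z h => ?_) hiso
  obtain ⟨h1, h2, h3⟩ := hZ Z h
  have h6 : (T.inv Z).w ≠ -1 := by rw [h2]; exact hc
  exact ⟨⟨⟨h2, fun h => absurd h (by decide), fun _ => h3⟩, hB.regular Z (Or.inl h1) h3 h6⟩,
    hB.hecke Z h1 h3, hB.nonvanishing Z h1 h3 h6⟩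

end Pool.Agent.W495.DC
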