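import Mathlib

/-!
# Critical values of motivic L-functions: definitions
-/

set_option autoImplicit false

namespace Pool.Agent.W495.DC

/-- `ε = true` is the sign `+`, and `sgn m` is the sign of `(-1) ^ m`. -/
def sgn (m : ℤ) : Bool := m % 2 == 0

/-- What is used of a pure motive over `ℚ` with coefficients in `E`: the weight, the set of the
Hodge types `(p, q)` with `h^{p,q} ≠ 0`, the dimensions `n ε` of the eigenspaces of `F_∞` (over `E`),
the values of the L-function at the integers `m` with `reg m` (that is, where it has no pole) and the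
periods `c^ε` for fixed bases, both as functions of the embedding of `E` in `ℂ` (that is, as elements
of `E ⊗ ℂ`). -/
structure Invariants (E : Type) [Field E] where
  w : ℤ
  types : Set (ℤ × ℤ)
  /-- the pairs `(p, ε)` such that `F_∞` has the eigenvalue `ε` on the classes of type `(p, p)` -/
  real : Set (ℤ × Bool)
  n : Bool → ℕ
  reg : ℤ → Prop
  L : ℤ → (E →+* ℂ) → ℂ
  c : Bool → (E →+* ℂ) → ℂ

variable {E : Type} [Field E]

/-- There are no classes of type `(w/2, w/2)`. -/
def Invariants.NoMiddle (M : Invariants E) : Prop := ∀ p q, (p, q) ∈ M.types → p ≠ q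

/-- The integer `m` is critical: `p < m ≤ q` for all Hodge types with `p < q`. -/
def Invariants.IsCritical (M : Invariants E) (m : ℤ) : Prop :=
  ∀ p q, (p, q) ∈ M.types → p < q → p < m ∧ m ≤ q

/-- The motive `M` is critical (at `0`, classes of type `(p, p)` are allowed): `min (p, q) ≤ -1` and
`max (p, q) ≥ 0` for all Hodge types with `p ≠ q`, and `F_∞` is `1` on the classes of type `(p, p)` for
`p < 0` and `-1` for `p ≥ 0`. -/
def Invariants.IsCriticalAtZero (M : Invariants E) : Prop :=
  (∀ p q, (p, q) ∈ M.types → p ≠ q → min p q ≤ -1 ∧ 0 ≤ max p q) ∧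
    ∀ p ε, (p, ε) ∈ M.real → (p < 0 ↔ ε = true)

/-- `M` has weight `w`, and it has no classes of type `(w/2, w/2)` (if `b` is true) or is critical at
zero (if `b` is false). The periods `c^ε` are defined for these motives. -/
def Invariants.Kind (b : Bool) (w : ℤ) (M : Invariants E) : Prop :=
  M.w = w ∧ (b = true → M.NoMiddle) ∧ (b = false → M.IsCriticalAtZero)

/-- Deligne's conjecture at `m`: `L(m, M) = e (2πi)^(m n^ε) c^ε(M)` for some `e ∈ E`, where `ε` is the
sign of `(-1)^m`. -/
def Invariants.Deligne (M : Invariants E) (m : ℤ) : Prop :=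
  ∃ e : E, ∀ σ : E →+* ℂ,
    M.L m σ = σ e * ((2 * Real.pi * Complex.I) ^ (m * (M.n (sgn m) : ℤ)) * M.c (sgn m) σ)

/-- The category of pure motives over `ℚ` (for absolute Hodge cycles), with coefficients in arbitrary
number fields `E`: the invariants, extension of coefficients, direct sums `M ⊕ ⨁ X i`, isomorphy,
the motives attached to algebraic Hecke characters of number fields (`R_{K/ℚ} M(χ)`), and the
potentially CM motives (the motives in the category generated by Artin motives and by the abelian
varieties over `ℚ` that have complex multiplication over `ℚ̄`). -/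
structure Motives where
  Mot : (E : Type) → [Field E] → [NumberField E] → Type
  inv : {E : Type} → [Field E] → [NumberField E] → Mot E → Invariants E
  ext : {E : Type} → (E' : Type) → [Field E] → [NumberField E] → [Field E'] → [NumberField E'] →
    [Algebra E E'] → Mot E → Mot E'
  add : {E : Type} → [Field E] → [NumberField E] → Mot E → Mot E → Mot E
  Iso : {E : Type} → [Field E] → [NumberField E] → Mot E → Mot E → Prop
  IsHecke : {E : Type} → [Field E] → [NumberField E] → Mot E → Prop
  IsPotCM : {E : Type} → [Field E] → [NumberField E] → Mot E → Prop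

/-- `M` plus the sum of the motives of a list. -/
def Motives.sum (T : Motives) {E : Type} [Field E] [NumberField E] (M : T.Mot E) :
    List (T.Mot E) → T.Mot E
  | [] => M
  | X :: l => T.add (T.sum M l) X

/-- Direct sums, isomorphisms and extension of coefficients. -/
structure IsMotives (T : Motives) : Prop where
  kind_add : ∀ {E : Type} [Field E] [NumberField E] (b : Bool) (w : ℤ) (M N : T.Mot E),
    (T.inv M).Kind b w → (T.inv N).Kind b w → (T.inv (T.add M N)).Kind b w
  reg_add : ∀ {E : Type} [Field E] [NumberField E] (M N : T.Mot E) (m : ℤ),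
    (T.inv M).reg m → (T.inv N).reg m → (T.inv (T.add M N)).reg m
  /-- the L-function of a direct sum -/
  L_add : ∀ {E : Type} [Field E] [NumberField E] (M N : T.Mot E) (m : ℤ) (σ : E →+* ℂ),
    (T.inv M).reg m → (T.inv N).reg m →
    (T.inv (T.add M N)).L m σ = (T.inv M).L m σ * (T.inv N).L m σ
  n_add : ∀ {E : Type} [Field E] [NumberField E] (M N : T.Mot E) (ε : Bool),
    (T.inv (T.add M N)).n ε = (T.inv M).n ε + (T.inv N).n ε
  /-- the periods of a direct sum, up to factors in `E^×` -/
  c_add : ∀ {E : Type} [Field E] [NumberField E] (b : Bool) (w : ℤ) (M N : T.Mot E) (ε : Bool),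
    (T.inv M).Kind b w → (T.inv N).Kind b w → ∃ e : E, e ≠ 0 ∧ ∀ σ : E →+* ℂ,
      (T.inv (T.add M N)).c ε σ = σ e * ((T.inv M).c ε σ * (T.inv N).c ε σ)
  c_ne_zero : ∀ {E : Type} [Field E] [NumberField E] (b : Bool) (w : ℤ) (M : T.Mot E) (ε : Bool)
    (σ : E →+* ℂ), (T.inv M).Kind b w → (T.inv M).c ε σ ≠ 0
  L_iso : ∀ {E : Type} [Field E] [NumberField E] (M N : T.Mot E), T.Iso M N →
    ∀ (m : ℤ) (σ : E →+* ℂ), (T.inv M).L m σ = (T.inv N).L m σ
  n_iso : ∀ {E : Type} [Field E] [NumberField E] (M N : T.Mot E), T.Iso M N →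
    ∀ ε, (T.inv M).n ε = (T.inv N).n ε
  c_iso : ∀ {E : Type} [Field E] [NumberField E] (b : Bool) (w : ℤ) (M N : T.Mot E),
    T.Iso M N → (T.inv M).Kind b w →
    ∀ ε, ∃ e : E, e ≠ 0 ∧ ∀ σ : E →+* ℂ, (T.inv M).c ε σ = σ e * (T.inv N).c ε σ
  kind_ext : ∀ {E E' : Type} [Field E] [NumberField E] [Field E'] [NumberField E'] [Algebra E E']
    (b : Bool) (w : ℤ) (M : T.Mot E), (T.inv M).Kind b w → (T.inv (T.ext E' M)).Kind b w
  reg_ext : ∀ {E E' : Type} [Field E] [NumberField E] [Field E'] [NumberField E'] [Algebra E E']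
    (M : T.Mot E) (m : ℤ), (T.inv M).reg m → (T.inv (T.ext E' M)).reg m
  /-- extension of coefficients -/
  L_ext : ∀ {E E' : Type} [Field E] [NumberField E] [Field E'] [NumberField E'] [Algebra E E']
    (M : T.Mot E) (m : ℤ) (σ : E' →+* ℂ),
    (T.inv (T.ext E' M)).L m σ = (T.inv M).L m (σ.comp (algebraMap E E'))
  n_ext : ∀ {E E' : Type} [Field E] [NumberField E] [Field E'] [NumberField E'] [Algebra E E']
    (M : T.Mot E) (ε : Bool), (T.inv (T.ext E' M)).n ε = (T.inv M).n ε
  c_ext : ∀ {E E' : Type} [Field E] [NumberField E] [Field E'] [NumberField E'] [Algebra E E']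
    (b : Bool) (w : ℤ) (M : T.Mot E) (ε : Bool), (T.inv M).Kind b w →
    ∃ e : E', e ≠ 0 ∧ ∀ σ : E' →+* ℂ,
      (T.inv (T.ext E' M)).c ε σ = σ e * (T.inv M).c ε (σ.comp (algebraMap E E'))

/-- The published facts on potentially CM motives without classes of type `(w/2, w/2)`. -/
structure HasBrauer (T : Motives) : Prop where
  /-- Brauer's theorem for the Taniyama group (Langlands, Deligne: its representations are the
  potentially CM motives): after an extension of the coefficients, `M ⊕ X_1 ⊕ ⋯ ⊕ X_r` is isomorphic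
  to `Y_0 ⊕ Y_1 ⊕ ⋯ ⊕ Y_s`, where the `X_i` and `Y_j` are attached to Hecke characters and have the
  weight and the Hodge types of `M` -/
  brauer : ∀ {E : Type} [Field E] [NumberField E] (M : T.Mot E), T.IsPotCM M →
    (T.inv M).types.Nonempty → (T.inv M).NoMiddle → ∃ (E' : Type) (_ : Field E')
      (_ : NumberField E') (_ : Algebra E E')
      (X : List (T.Mot E')) (Y₀ : T.Mot E') (Y : List (T.Mot E')),
      (∀ Z, Z ∈ X ∨ Z = Y₀ ∨ Z ∈ Y → T.IsHecke Z ∧ (T.inv Z).w = (T.inv M).w ∧
        (T.inv Z).types ⊆ (T.inv M).types) ∧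
      T.Iso (T.sum (T.ext E' M) X) (T.sum Y₀ Y)
  /-- Deligne's conjecture for Hecke characters (Blasius, Harder) -/
  hecke : ∀ {E : Type} [Field E] [NumberField E] (M : T.Mot E), T.IsHecke M →
    (T.inv M).NoMiddle → ∀ m, (T.inv M).IsCritical m → (T.inv M).Deligne m
  /-- non-vanishing of Hecke L-functions outside the critical strip and on its boundary (Hecke), and
  the functional equation -/
  nonvanishing : ∀ {E : Type} [Field E] [NumberField E] (M : T.Mot E), T.IsHecke M →
    (T.inv M).NoMiddle → ∀ m, (T.inv M).IsCritical m → 2 * m ≠ (T.inv M).w + 1 →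
    ∀ σ : E →+* ℂ, (T.inv M).L m σ ≠ 0
  /-- hence there are no poles at these points (quotients of products of Hecke L-functions) -/
  regular : ∀ {E : Type} [Field E] [NumberField E] (M : T.Mot E), T.IsHecke M ∨ T.IsPotCM M →
    (T.inv M).NoMiddle → ∀ m, (T.inv M).IsCritical m → 2 * m ≠ (T.inv M).w + 1 →
    (T.inv M).reg m

/-- The published facts on critical potentially CM motives, classes of type `(p, p)` being allowed. -/
structure HasBrauerAtZero (T : Motives) : Prop where
  /-- as in `HasBrauer`: the `X_i` and `Y_j` are critical motives attached to Hecke characters, of the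
  weight of `M` -/
  brauer : ∀ {E : Type} [Field E] [NumberField E] (M : T.Mot E), T.IsPotCM M →
    (T.inv M).types.Nonempty → (T.inv M).IsCriticalAtZero → ∃ (E' : Type) (_ : Field E')
      (_ : NumberField E') (_ : Algebra E E')
      (X : List (T.Mot E')) (Y₀ : T.Mot E') (Y : List (T.Mot E')),
      (∀ Z, Z ∈ X ∨ Z = Y₀ ∨ Z ∈ Y → T.IsHecke Z ∧ (T.inv Z).w = (T.inv M).w ∧
        (T.inv Z).IsCriticalAtZero) ∧
      T.Iso (T.sum (T.ext E' M) X) (T.sum Y₀ Y)
  /-- Deligne's conjecture for Hecke characters (Siegel and Klingen; Blasius, Harder) -/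
  hecke : ∀ {E : Type} [Field E] [NumberField E] (M : T.Mot E), T.IsHecke M →
    (T.inv M).IsCriticalAtZero → (T.inv M).Deligne 0
  /-- non-vanishing of Hecke L-functions outside the critical strip and on its boundary (Hecke), and
  the functional equation; the central point is `0` if the weight is `-1` -/
  nonvanishing : ∀ {E : Type} [Field E] [NumberField E] (M : T.Mot E), T.IsHecke M →
    (T.inv M).IsCriticalAtZero → (T.inv M).w ≠ -1 → ∀ σ : E →+* ℂ, (T.inv M).L 0 σ ≠ 0
  /-- hence there are no poles at `0` (quotients of products of Hecke L-functions) -/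
  regular : ∀ {E : Type} [Field E] [NumberField E] (M : T.Mot E), T.IsHecke M ∨ T.IsPotCM M →
    (T.inv M).IsCriticalAtZero → (T.inv M).w ≠ -1 → (T.inv M).reg 0

end Pool.Agent.W495.DC
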