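import Pool.Agent.W495.DC.Core

/-!
# Ratios of successive critical values
-/

set_option autoImplicit false

namespace Pool.Agent.W495.DC

/-- `M` is `Res_{F/ℚ} M₀` for a motive `M₀` of rank `n` over a totally imaginary field `F` of degree
`d`; `Δ` is the number `Δ_F`, and `Linf m` is the archimedean factor at `m`. -/
structure IsRes {E : Type} [Field E] (M : Invariants E) (n d : ℕ) (Δ : ℂ) (Linf : ℤ → ℂ) :
    Prop where
  half : ∀ ε, M.n ε = n * (d / 2)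
  square : ∃ r : ℚ, r ≠ 0 ∧ Δ ^ 2 = (r : ℂ)
  /-- `c⁺(M) / c⁻(M) = Δ_F ^ n` modulo `E^×` (Deligne) -/
  period : ∃ e : E, e ≠ 0 ∧ ∀ σ : E →+* ℂ, M.c true σ = σ e * (Δ ^ n * M.c false σ)
  /-- `L_∞(m, M) / L_∞(m + 1, M)` is `(2π) ^ (n d / 2)` up to a rational factor -/
  arch : ∀ m, M.IsCritical m → M.IsCritical (m + 1) → Linf (m + 1) ≠ 0 ∧ ∃ r : ℚ, r ≠ 0 ∧
    Linf m = (r : ℂ) * (2 * Real.pi) ^ (n * (d / 2)) * Linf (m + 1)

variable {T : Motives}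

theorem L_sum_ne_zero (hT : IsMotives T) {E : Type} [Field E] [NumberField E] {m : ℤ} {b : Bool}
    {w : ℤ} {M : T.Mot E} (gM : Good b w m M) (σ : E →+* ℂ) : ∀ l : List (T.Mot E),
      (∀ Z ∈ l, Good b w m Z ∧ (T.inv Z).L m σ ≠ 0) →
      ((T.inv (T.sum M l)).L m σ ≠ 0 ↔ (T.inv M).L m σ ≠ 0)
  | [], _ => Iff.rfl
  | X :: l, h => by
    have h1 := good_sum hT gM l fun Z hZ => (h Z (List.mem_cons_of_mem _ hZ)).1
    have h2 := h X List.mem_cons_self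
    have h3 := L_sum_ne_zero hT gM σ l fun Z hZ => h Z (List.mem_cons_of_mem _ hZ)
    change (T.inv (T.add (T.sum M l) X)).L m σ ≠ 0 ↔ _
    rw [hT.L_add _ _ m σ h1.2 h2.1.2, ← h3]
    exact ⟨fun h => left_ne_zero_of_mul h, fun h => mul_ne_zero h h2.2⟩

theorem L_ne_zero (hT : IsMotives T) (hB : HasBrauer T) {E : Type} [Field E] [NumberField E]
    (M : T.Mot E) (hM : T.IsPotCM M) (hne : (T.inv M).types.Nonempty) (h0 : (T.inv M).NoMiddle)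
    (m : ℤ) (hm : (T.inv M).IsCritical m) (hc : 2 * m ≠ (T.inv M).w + 1) (σ : E →+* ℂ) :
    (T.inv M).L m σ ≠ 0 := by
  obtain ⟨E', _, _, _, X, Y₀, Y, hZ, hiso⟩ := hB.brauer M hM hne h0
  have gM : Good true (T.inv M).w m M :=
    ⟨⟨rfl, fun _ => h0, fun h => absurd h (by decide)⟩, hB.regular M (Or.inr hM) h0 m hm hc⟩
  have gM' : Good true (T.inv M).w m (T.ext E' M) :=
    ⟨hT.kind_ext _ _ M gM.1, hT.reg_ext M m gM.2⟩
  obtain ⟨τ, hτ⟩ : ∃ τ : E' →+* ℂ, τ.comp (algebraMap E E') = σ := by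
    let _ : Algebra E ℂ := σ.toAlgebra
    have hfin : FiniteDimensional E E' := by
      have : IsScalarTower ℚ E E' := inferInstance
      exact FiniteDimensional.right ℚ E E'
    obtain ⟨φ⟩ : Nonempty (E' →ₐ[E] ℂ) := ⟨IsAlgClosed.lift⟩
    exact ⟨φ.toRingHom, by ext y; exact φ.commutes y⟩
  have hD : ∀ Z, Z ∈ X ∨ Z = Y₀ ∨ Z ∈ Y → Good true (T.inv M).w m Z ∧ (T.inv Z).L m τ ≠ 0 := by
    intro Z h
    obtain ⟨h1, h2, h3⟩ := hZ Z h
    have h4 : (T.inv Z).NoMiddle := fun p q hpq => h0 p q (h3 hpq)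
    have h5 : (T.inv Z).IsCritical m := fun p q hpq => hm p q (h3 hpq)
    have h6 : 2 * m ≠ (T.inv Z).w + 1 := by rw [h2]; exact hc
    exact ⟨⟨⟨h2, fun _ => h4, fun h => absurd h (by decide)⟩,
      hB.regular Z (Or.inl h1) h4 m h5 h6⟩, hB.nonvanishing Z h1 h4 m h5 h6 τ⟩
  have h1 := (L_sum_ne_zero hT (hD Y₀ (Or.inr (Or.inl rfl))).1 τ Y
    fun Z h => hD Z (Or.inr (Or.inr h))).2 (hD Y₀ (Or.inr (Or.inl rfl))).2
  rw [← hT.L_iso _ _ hiso] at h1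
  have h2 := (L_sum_ne_zero hT gM' τ X fun Z h => hD Z (Or.inl h)).1 h1
  rw [hT.L_ext, hτ] at h2
  exact h2

theorem sgn_succ (m : ℤ) : sgn (m + 1) = !sgn m := by
  unfold sgn
  rcases Int.emod_two_eq_zero_or_one m with h | h
  · have : (m + 1) % 2 = 1 := by omega
    rw [h, this]; rfl
  · have : (m + 1) % 2 = 0 := by omega
    rw [h, this]; rfl

theorem ratio (hT : IsMotives T) (hB : HasBrauer T) {E : Type} [Field E] [NumberField E]
    (M : T.Mot E) (hM : T.IsPotCM M) (hne : (T.inv M).types.Nonempty) (h0 : (T.inv M).NoMiddle)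
    {n d : ℕ} {Δ : ℂ} {Linf : ℤ → ℂ} (hR : IsRes (T.inv M) n d Δ Linf)
    (m : ℤ) (hm : (T.inv M).IsCritical m) (hm' : (T.inv M).IsCritical (m + 1))
    (hc : 2 * m ≠ (T.inv M).w + 1) (hc' : 2 * (m + 1) ≠ (T.inv M).w + 1) :
    ∃ e : E, e ≠ 0 ∧ ∀ σ : E →+* ℂ, Linf m * (T.inv M).L m σ =
      σ e * (Complex.I ^ (d / 2) * Δ) ^ n * (Linf (m + 1) * (T.inv M).L (m + 1) σ) := by
  obtain ⟨e₁, h₁⟩ := main hT hB M hM hne h0 m hm hc
  obtain ⟨e₂, h₂⟩ := main hT hB M hM hne h0 (m + 1) hm' hc'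
  obtain ⟨σ₀⟩ : Nonempty (E →+* ℂ) := inferInstance
  have n₁ : e₁ ≠ 0 := by
    rintro rfl
    exact L_ne_zero hT hB M hM hne h0 m hm hc σ₀ (by rw [h₁ σ₀, map_zero, zero_mul])
  have n₂ : e₂ ≠ 0 := by
    rintro rfl
    exact L_ne_zero hT hB M hM hne h0 (m + 1) hm' hc' σ₀ (by rw [h₂ σ₀, map_zero, zero_mul])
  obtain ⟨s, hs0, hs⟩ := hR.square
  obtain ⟨a, ha0, ha⟩ := hR.period
  obtain ⟨hL, r, hr0, hr⟩ := hR.arch m hm hm'
  have hΔ : Δ ≠ 0 := by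
    rintro rfl
    apply hs0
    have : (s : ℂ) = 0 := by rw [← hs]; simp
    exact_mod_cast this
  -- the factor for the sign
  obtain ⟨g, hg0, hg⟩ : ∃ g : E, g ≠ 0 ∧ ∀ σ : E →+* ℂ,
      (T.inv M).c (sgn m) σ = σ g * (Δ ^ n * (T.inv M).c (!sgn m) σ) := by
    cases hsg : sgn m with
    | true => exact ⟨a, ha0, ha⟩
    | false =>
      refine ⟨(a * (s : E) ^ n)⁻¹, inv_ne_zero (mul_ne_zero ha0 (pow_ne_zero _ (by
        exact_mod_cast hs0))), fun σ => ?_⟩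
      have ha1 : σ a ≠ 0 := by simpa using ha0
      have hs1 : (s : ℂ) ≠ 0 := by exact_mod_cast hs0
      have h5 := ha σ
      change _ = _ * (_ * (T.inv M).c true σ)
      rw [h5, map_inv₀, map_mul, map_pow, map_ratCast, ← hs]
      field_simp
      try ring
  refine ⟨(r : E) * (-1) ^ (n * (d / 2)) * g * (e₁ / e₂), ?_, fun σ => ?_⟩
  · refine mul_ne_zero (mul_ne_zero (mul_ne_zero (by exact_mod_cast hr0) ?_) hg0)
      (div_ne_zero n₁ n₂)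
    exact pow_ne_zero _ (neg_ne_zero.mpr one_ne_zero)
  · have n₂' : σ e₂ ≠ 0 := by simpa using n₂
    have hJ : (Complex.I ^ (d / 2) * Δ) ^ n = Complex.I ^ (n * (d / 2)) * Δ ^ n := by
      rw [mul_pow, ← pow_mul, mul_comm (d / 2) n]
    have hz : (2 * Real.pi * Complex.I : ℂ) ^ ((m + 1) * ((n * (d / 2) : ℕ) : ℤ)) =
        (2 * Real.pi * Complex.I : ℂ) ^ (m * ((n * (d / 2) : ℕ) : ℤ)) *
          ((2 * Real.pi) ^ (n * (d / 2)) * Complex.I ^ (n * (d / 2))) := by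
      rw [add_mul, one_mul, zpow_add₀ tp_ne_zero, zpow_natCast, ← mul_pow]
    have hI : Complex.I ^ (n * (d / 2)) * Complex.I ^ (n * (d / 2)) = (-1) ^ (n * (d / 2)) := by
      rw [← mul_pow, Complex.I_mul_I]
    have hI2 : ((-1 : ℂ) ^ (n * (d / 2))) * ((-1 : ℂ) ^ (n * (d / 2))) = 1 := by
      rw [← mul_pow]; simp
    have he : σ ((r : E) * (-1) ^ (n * (d / 2)) * g * (e₁ / e₂)) =
        (r : ℂ) * (-1) ^ (n * (d / 2)) * σ g * (σ e₁ / σ e₂) := by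
      rw [map_mul, map_mul, map_mul, map_div₀, map_pow, map_neg, map_one, map_ratCast]
    obtain ⟨Q, hQ⟩ : ∃ Q, σ e₁ / σ e₂ = Q := ⟨_, rfl⟩
    have hE : σ e₁ = Q * σ e₂ := by rw [← hQ, div_mul_cancel₀ _ n₂']
    rw [he, hQ, h₁ σ, h₂ σ, sgn_succ, hg σ, hr, hR.half, hR.half, hz, hJ, hE]
    generalize (2 * Real.pi * Complex.I : ℂ) ^ (m * ((n * (d / 2) : ℕ) : ℤ)) = A
    generalize Complex.I ^ (n * (d / 2)) = J at hI ⊢
    generalize (-1 : ℂ) ^ (n * (d / 2)) = S at hI hI2 ⊢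
    generalize ((2 : ℂ) * Real.pi) ^ (n * (d / 2)) = P
    linear_combination (-((r : ℂ) * P * Linf (m + 1) * Q * σ e₂ * A * σ g * Δ ^ n *
      (T.inv M).c (!sgn m) σ)) * hI2 + (-((r : ℂ) * P * Linf (m + 1) * Q * σ e₂ * A * σ g * Δ ^ n *
      (T.inv M).c (!sgn m) σ) * S) * hI

end Pool.Agent.W495.DC
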